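import Pool.Agent.Y164.NZ.StmT
import Pool.Agent.Y713.TG.Thm

/-! NZT-TATE: the Tate conjecture at `ℓ` if all first layers of second layers come from points of
order `1 - s`. -/

set_option autoImplicit false
set_option linter.all false

open Polynomial IsDedekindDomain

namespace Pool.Agent.Y849.NZ

open Pool.Agent.Y713.SE
open Pool.Agent.Y713.SE.Dat
open Pool.Agent.Y164.NZ
open Pool.Agent.Y160.SE (Jac jm sg pe Good IsTateClass IsTC IsTM IsCoc LocTriv hyps jm_pe pe_mul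
  first_tor exists_W1' exists_W' tate_of_first TateAt exists_U')
open Pool.Agent.TH115.GD (pl Preserves Comp Sep exists_conj lift restr preserves incl ak IsTower
  sepKΩ)

section fix
variable {ℓ n : ℕ} {k k' K F Ω : Type} [Field k] [CharZero k] [Field k'] [Algebra k k']
  [IsSepClosure k k'] [Field K] [Algebra k[X] K] [IsFractionRing k[X] K] [Field F]
  [Algebra k'[X] F] [IsFractionRing k'[X] F] [Algebra K F] [Field Ω] [Algebra F Ω] [Algebra K Ω]
  [IsScalarTower K F Ω] [IsSepClosure F Ω] [IsGalois F Ω] [IsGalois K Ω] [IsSepClosed Ω]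

theorem fix_lam (hFIX : S_FIX) (hKF : HKF k k' K F) (D : Dat ℓ n K) (P : k[X]) (u : ℕ)
    (b : Fin n → k[X]) (hG : Gm D P u b) (hg : Good ℓ D.ζ D.f) (N : ℕ) : ∀ x : Jac ℓ D.f Ω,
    (∀ σ : Ω ≃ₐ[F] Ω, jm ℓ D.f (Pool.Agent.TH115.GD.rs K σ) x = x) →
    pe hg Ω ((1 - X) ^ N) x = 0 → pe hg Ω (1 - X) x = 0 := by
  induction N with
  | zero =>
    intro x hx h
    rw [pow_zero, Pool.Agent.Y160.SE.pe_one] at h
    rw [h, map_zero]
  | succ N ih =>
    intro x hx h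
    rcases Nat.eq_zero_or_pos N with rfl | hN
    · rwa [zero_add, pow_one] at h
    apply ih x hx
    obtain ⟨M, rfl⟩ : ∃ M, N = M + 1 := ⟨N - 1, by omega⟩
    set z := pe hg Ω ((1 - X) ^ M) x with hz
    have hzf : ∀ σ : Ω ≃ₐ[F] Ω, jm ℓ D.f (Pool.Agent.TH115.GD.rs K σ) z = z := fun σ => by
      rw [hz, jm_pe, hx]
    have h2 : pe hg Ω (1 - X) (pe hg Ω (1 - X) z) = 0 := by
      rw [hz, ← pe_mul, ← pe_mul]
      have e1 : ((1 : ℤ[X]) - X) * (1 - X) * (1 - X) ^ M = (1 - X) ^ (M + 1 + 1) := by ring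
      rw [e1, h]
    have h3 : pe hg Ω (1 - X) z = 0 := by
      apply D.tj_inj
      rw [D.tj_lam hg, D.tj_zero]
      refine hFIX ℓ n k k' K F Ω hKF D P u b hG _ (fun σ => ?_) ?_
      · have := congrArg (D.tj Ω) (hzf σ)
        rw [D.tj_jm] at this
        exact this
      · have := congrArg (D.tj Ω) h2
        rwa [D.tj_lam hg, D.tj_lam hg, D.tj_zero] at this
    have e2 : ((1 : ℤ[X]) - X) ^ (M + 1) = (1 - X) * (1 - X) ^ M := by ring
    rw [e2, pe_mul, ← hz, h3]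

end fix

section sec
variable {ℓ n : ℕ} {k k' K F : Type} [Field k] [CharZero k] [Field k'] [Algebra k k']
  [IsSepClosure k k'] [Field K] [Algebra k[X] K] [IsFractionRing k[X] K] [Field F]
  [Algebra k'[X] F] [IsFractionRing k'[X] F] [Algebra K F] [IsGalois K (Sep F)]
  {D : Dat ℓ n K}

/-- the second layer -/
noncomputable def sl (hg : Good ℓ D.ζ D.f) (c : ℕ → (Sep F ≃ₐ[F] Sep F) → Jac ℓ D.f (Sep F)) :
    (Sep F ≃ₐ[F] Sep F) → ClassGroup (D.base (Sep F)).A :=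
  fun σ => D.tj (Sep F) (pe hg (Sep F) ((1 - X) ^ (ℓ - 3)) (c 1 σ))

theorem phi_sl (hg : Good ℓ D.ζ D.f) (h3 : 3 ≤ ℓ)
    (c : ℕ → (Sep F ≃ₐ[F] Sep F) → Jac ℓ D.f (Sep F)) (σ : Sep F ≃ₐ[F] Sep F) :
    (D.base (Sep F)).phi (sl hg c σ) =
      D.tj (Sep F) (pe hg (Sep F) ((1 - X) ^ (ℓ - 2)) (c 1 σ)) := by
  unfold sl
  rw [← D.tj_lam hg, ← pe_mul, ← pow_succ', show ℓ - 3 + 1 = ℓ - 2 by omega]

theorem sl_sec (hFIX : S_FIX) (hTAU : S_TAU) (hKF : HKF k k' K F) (P : k[X]) (u : ℕ)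
    (b : Fin n → k[X]) (hG : Gm D P u b) (hg : Good ℓ D.ζ D.f)
    {c : ℕ → (Sep F ≃ₐ[F] Sep F) → Jac ℓ D.f (Sep F)}
    (hc : IsTateClass ℓ k' D.f c) : Sec D k' (sl hg c) := by
  have hN : Preserves K F (Sep F) := preserves hKF
  have h2 := hg.prime.two_le
  have h3 : 3 ≤ ℓ := by
    have := hG.two
    omega
  obtain ⟨W, hW⟩ := exists_W1' hyps hg
  have htwo : ∀ σ, (D.base (Sep F)).phi ((D.base (Sep F)).phi (sl hg c σ)) = 1 := by
    intro σ
    have h1 := first_tor hyps hg hc.tc σ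
    unfold Pool.Agent.Y160.SE.Tor at h1
    have h3' := congrArg (D.tj (Sep F)) h1
    rw [phi_sl hg h3]
    rwa [D.tj_lam hg, D.tj_zero] at h3'
  have hcoc3 := (hc.tc.coc 1).pe hg ((1 - X) ^ (ℓ - 3))
  have hCoc : D.CocF (sl hg c) := by
    refine ⟨hcoc3.lc.comp (D.tj (Sep F)), fun σ τ => ?_⟩
    show D.tj (Sep F) (pe hg (Sep F) ((1 - X) ^ (ℓ - 3)) (c 1 (σ * τ))) = _
    rw [hcoc3.mul σ τ, D.tj_add, D.tj_jm]
    rfl
  refine ⟨hCoc, htwo, fun v => ?_, fun τ => ?_⟩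
  · obtain ⟨ι, P, hP⟩ := ((hc.loc 1).1 v).pe hg ((1 - X) ^ (ℓ - 2))
    refine ⟨ι, D.tj _ P, fun τ σ hτσ => ?_⟩
    have h1 := congrArg (D.tj _) (hP τ σ hτσ)
    rw [D.tj_jm, D.tj_sub, D.tj_jm] at h1
    show D.mC (ι.restrictScalars K) ((D.base (Sep F)).phi (sl hg c σ)) = _
    rw [phi_sl hg h3]
    exact h1
  · obtain ⟨m, Q, hQ, hinv⟩ := hc.inv τ
    have hpow : ∀ (k n : ℕ) (σ), ℓ ^ k • c (k + n) σ = c n σ := by
      intro k
      induction k with
      | zero => intro n σ; rw [pow_zero, one_smul, zero_add]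
      | succ k ih =>
        intro n σ
        rw [pow_succ, mul_smul, show k + 1 + n = (k + n) + 1 by omega, hc.tc.step, ih]
    have hQpow : ∀ (k : ℕ), ℓ ^ k • Q k = 0 := by
      intro k
      induction k with
      | zero => rw [hQ.zero, smul_zero]
      | succ k ih =>
        rw [pow_succ, mul_smul, hQ.step, ih]
    have hQfix : ∀ σ : Sep F ≃ₐ[F] Sep F,
        jm ℓ D.f (Pool.Agent.TH115.GD.rs K σ) (Q m) = Q m := by
      intro σ
      obtain ⟨σ', hσ'⟩ := exists_conj hN τ σ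
      have h1 := hinv m σ σ' hσ'
      have h3 := hpow m 0 σ
      have h4 := hpow m 0 σ'
      rw [add_zero, hc.tc.zero] at h3 h4
      rw [smul_sub, ← map_nsmul, h3, h4, map_zero, sub_zero] at h1
      exact (sub_eq_zero.1 h1.symm)
    have hWn : ∀ (n : ℕ) (x : Jac ℓ D.f (Sep F)), pe hg (Sep F) ((1 - X) ^ ((ℓ - 1) * n)) x =
        pe hg (Sep F) (W ^ n) (ℓ ^ n • x) := by
      intro n
      induction n with
      | zero => intro x; rw [mul_zero, pow_zero, pow_zero, pow_zero, one_smul]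
      | succ n ih =>
        intro x
        rw [mul_add, mul_one, pow_add, pe_mul, hW, ih, pow_succ W, pe_mul, pow_succ ℓ, mul_smul,
          ← map_nsmul, ← map_nsmul, smul_comm]
    have hQm : pe hg (Sep F) (1 - X) (Q m) = 0 := by
      refine fix_lam hFIX hKF D P u b hG hg ((ℓ - 1) * m) (Q m) hQfix ?_
      rw [hWn, hQpow, map_zero]
    set A := pe hg (Sep F) ((1 - X) ^ (ℓ - 3)) (Q (m + 1)) with hA
    have hA1 : pe hg (Sep F) (1 - X) (pe hg (Sep F) (1 - X) A) = pe hg (Sep F) W (Q m) := by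
      rw [hA, ← pe_mul, ← pe_mul]
      have e1 : ((1 : ℤ[X]) - X) * (1 - X) * (1 - X) ^ (ℓ - 3) = (1 - X) ^ (ℓ - 1) := by
        rw [← pow_two, ← pow_add]
        congr 1
        omega
      rw [e1, hW, ← map_nsmul, hQ.step]
    have hA2 : (D.base (Sep F)).phi ((D.base (Sep F)).phi ((D.base (Sep F)).phi (D.tj _ A))) =
        1 := by
      rw [← D.tj_lam hg, ← D.tj_lam hg, ← D.tj_lam hg, hA1, Pool.Agent.Y160.SE.pe_comm, hQm,
        map_zero, D.tj_zero]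
    have hRel : Rel D (sl hg c) τ (D.tj _ A) := by
      intro σ σ' h
      have h1 := hinv (m + 1) σ σ' h
      rw [smul_sub, ← map_nsmul, hpow m 1, hpow m 1] at h1
      have h3 := congrArg (pe hg (Sep F) ((1 - X) ^ (ℓ - 3))) h1
      rw [map_sub, ← jm_pe, map_sub, ← jm_pe, ← hA] at h3
      have h4 := congrArg (D.tj (Sep F)) h3
      rw [D.tj_sub, D.tj_sub, D.tj_jm, D.tj_jm] at h4
      rw [div_eq_iff_eq_mul, mul_comm] at h4
      exact h4
    obtain ⟨p, hp⟩ := ExpChar.exists (Sep F)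
    haveI := hp
    obtain ⟨m', hm'⟩ := (D.base (Sep F)).phi_ker (p := p) (phi_eq_one_iff.1 hA2)
    rw [← cl_PT] at hm'
    exact ⟨D.tj _ A, hRel, hTAU ℓ n k k' K F (Sep F) hKF D P u b hG (sl hg c) hCoc htwo τ
      (D.tj _ A) m' hRel hm'⟩

end sec

theorem t (hFIX : S_FIX) (hTAU : S_TAU) : S_TATE := by
  intro ℓ n k k' K F _ _ _ _ _ _ _ _ _ _ _ _ _ hKF D P u b hG hz
  have hg : Good ℓ D.ζ D.f := D.good hG.hδ
  have h2 := hg.prime.two_le
  have h3 : 3 ≤ ℓ := by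
    have := hG.two
    omega
  refine Pool.Agent.Y713.Tate.tateAt_of (tate_of_first hyps hg fun c hc => ?_)
  obtain ⟨m, Q, hQ, h4⟩ := hz (sl hg c) (sl_sec hFIX hTAU hKF P u b hG hg hc)
  have hQ' : (D.base (Sep F)).phi Q = cl ((D.base (Sep F)).PT m) := phi_eq_iff.2 hQ
  have h1 : (D.base (Sep F)).phi Q = D.mC (incl K K (Sep F)) (cl ((D.base K).PT m)) := by
    rw [D.mC_PT, hQ']
  obtain ⟨P', hP'⟩ := D.tj_surj K (cl ((D.base K).PT m))
  obtain ⟨R', hR'⟩ := D.tj_surj (Sep F) Q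
  refine ⟨P', R', ?_, fun σ => ?_⟩
  · apply D.tj_inj
    rw [D.tj_lam hg, D.tj_jm, hP', hR', h1]
  · apply D.tj_inj
    rw [D.tj_sub, D.tj_jm, hR', ← phi_sl hg h3]
    exact h4 σ

end Pool.Agent.Y849.NZ
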